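import Pool.Agent.D0H25.Aztec.Final

/-!
# MP_b90a94_co: domino tilings of an Aztec diamond with a knight's-move pair removed

The number `T n` of domino tilings of the Aztec diamond of order `n` with the unit squares centred at
`(-1/2, -1/2)` and `(1/2, 3/2)` removed, in closed form for all `n ≥ 2`.

Sketch. By Kasteleyn's theorem (with explicit signs for regions with holes) `T n` is the absolute
value of the minor of the Kasteleyn matrix `K` of the full Aztec diamond obtained by deleting the two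
squares, with the sign of the one edge between the squares centred at `(-1/2, 1/2)` and `(1/2, 1/2)`
reversed. Up to the factor `|det K| = 2^(n(n+1)/2)` this is an expression in four entries of the
inverse of `K`. These entries are partial sums of products of Krawtchouk coefficients, which are
evaluated by means of the super Catalan numbers, a symmetry and a telescoping sum.
-/

set_option autoImplicit false

namespace Pool.Agent.Results.MP_b90a94_co.ExplicitFormula

open Finset

/-- The Aztec diamond of order `n`: the unit squares with centre `(x, y)`, `|x| + |y| ≤ n`. The pair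
`(a, b)` of integers stands for the unit square with centre `(x, y) = (a + 1/2, b + 1/2)`. -/
noncomputable def aztecDiamond (n : ℕ) : Finset (ℤ × ℤ) :=
  ((Icc (-(n : ℤ)) n) ×ˢ (Icc (-(n : ℤ)) n)).filter fun c => |2 * c.1 + 1| + |2 * c.2 + 1| ≤ 2 * n

/-- The region `D_n`: the Aztec diamond of order `n` without the unit squares centred at
`(-1/2, -1/2)` and `(1/2, 3/2)`. -/
noncomputable def region (n : ℕ) : Finset (ℤ × ℤ) := aztecDiamond n \ {(-1, -1), (0, 1)}

/-- Two unit squares share an edge. -/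
def ShareEdge (p q : ℤ × ℤ) : Prop :=
  (p.1 = q.1 ∧ (p.2 = q.2 + 1 ∨ q.2 = p.2 + 1)) ∨
    (p.2 = q.2 ∧ (p.1 = q.1 + 1 ∨ q.1 = p.1 + 1))

/-- `τ` is a domino tiling of the region `R`: a set of dominoes (pairs of unit squares sharing an
edge) contained in `R` such that every unit square of `R` lies in exactly one of them. -/
def IsDominoTiling (R : Finset (ℤ × ℤ)) (τ : Finset (Finset (ℤ × ℤ))) : Prop :=
  (∀ D ∈ τ, D ⊆ R ∧ ∃ p q, ShareEdge p q ∧ D = {p, q}) ∧ ∀ s ∈ R, ∃! D, D ∈ τ ∧ s ∈ D

/-- `T n` is the number of domino tilings of `D_n`. -/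
noncomputable def T (n : ℕ) : ℕ := {τ : Finset (Finset (ℤ × ℤ)) | IsDominoTiling (region n) τ}.ncard

/-- `c m = binom(2m, m) / 4^m` -/
noncomputable def c (m : ℕ) : ℚ := (Nat.choose (2 * m) m : ℚ) / 4 ^ m

theorem T_eq (n : ℕ) : T n = Pool.Agent.Helper848.numTilings
    (((Pool.Agent.D0H25.Aztec.aztec n).erase (0, 1)).erase (-1, -1)) := by
  have h : region n = ((Pool.Agent.D0H25.Aztec.aztec n).erase (0, 1)).erase (-1, -1) := by
    ext x
    simp only [region, mem_sdiff, mem_erase, mem_insert, mem_singleton, not_or]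
    change (x ∈ Pool.Agent.D0H25.Aztec.aztec n ∧ _) ↔ _
    tauto
  unfold T
  rw [h]
  rfl

/-- Explicit formula for the number `T n` of domino tilings of `D_n`, `n ≥ 2`, by the residue of `n`
modulo `4`. -/
theorem result (m : ℕ) :
    (1 ≤ m → (T (4 * m) : ℚ) =
      2 ^ (4 * m * (4 * m + 1) / 2) * ((m : ℚ) / 2 * c m ^ 2 * (1 + c m ^ 2))) ∧
    (1 ≤ m → (T (4 * m + 1) : ℚ) =
      2 ^ ((4 * m + 1) * (4 * m + 2) / 2) * ((2 * (m : ℚ) + 1) / 4 * c m ^ 2 * (1 - c m ^ 2))) ∧
    (T (4 * m + 2) : ℚ) =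
      2 ^ ((4 * m + 2) * (4 * m + 3) / 2) * ((2 * (m : ℚ) + 1) / 4 * c m ^ 2) ∧
    (T (4 * m + 3) : ℚ) =
      2 ^ ((4 * m + 3) * (4 * m + 4) / 2) * ((2 * (m : ℚ) + 1) / 4 * c m * c (m + 1)) := by
  refine ⟨fun hm => ?_, fun hm => ?_, ?_, ?_⟩
  · rw [T_eq]; exact Pool.Agent.D0H25.Aztec.case0 m hm
  · rw [T_eq, erase_right_comm]; exact Pool.Agent.D0H25.Aztec.case1 m hm
  · rw [T_eq]; exact Pool.Agent.D0H25.Aztec.case2 m
  · rw [T_eq, erase_right_comm]; exact Pool.Agent.D0H25.Aztec.case3 m

end Pool.Agent.Results.MP_b90a94_co.ExplicitFormula
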